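import Mathlib
import Pool.Agent.N176.GW.Stm

set_option autoImplicit false

/-!
# The base `1 + √2`: statements of the steps

Everything is proved as in the golden base, with the Pell numbers in place of the Fibonacci numbers.
-/

namespace Pool.Agent.N176.SW

open Finset Filter Topology MeasureTheory
open Pool.Agent.H305R2 (roughPart)

/-- the Pell numbers -/
def U : ℕ → ℕ
  | 0 => 0
  | 1 => 1
  | (n + 2) => 2 * U (n + 1) + U n

/-- the base -/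
noncomputable def al : ℝ := 1 + Real.sqrt 2

/-- the linear form of the base `1 + √2` -/
noncomputable def gf (h N : ℕ) : ℤ :=
  (U (h + 1) : ℤ) * N + (U h : ℤ) * ⌊(N : ℝ) / al⌋

/-- TASK LIN: `N ↦ ⌊N / α⌋` is linear along steps of length `U_m`, with few exceptions. -/
def S_LIN : Prop := ∀ m A H : ℕ, 2 ≤ m →
  (((range (U m)).filter (fun i => ∃ u < H,
    ⌊((A + i + U m * u : ℕ) : ℝ) / al⌋ ≠
      ⌊((A + i : ℕ) : ℝ) / al⌋ + ((U (m - 1) * u : ℕ) : ℤ))).card : ℝ) ≤ 3 * H + 2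

/-- TASK TUG: the sieve bound for `k` exponents and fixed offsets in the base `1 + √2`. -/
def S_TUG : Prop := ∀ K : ℝ, ∃ C : ℝ, 1 ≤ C ∧ ∃ P : ℕ, ∀ x ≥ P, ∀ F : Finset ℕ,
  (∀ p ∈ F, x < p ∧ p ≤ 2 * x) → (F.card : ℝ) ^ 2 ≤ Real.log x → ∀ p1 ∈ F, (∀ p ∈ F, p1 ≤ p) →
  ∀ e : ℕ → ℤ, (∀ p ∈ F, ((|e p| : ℤ) : ℝ) ≤ K * al ^ (p - p1)) →
  ∀ A H : ℕ, al ^ (x / 2) ≤ (A : ℝ) → al ^ (x / 2) ≤ (H : ℝ) →
  ((A + H : ℕ) : ℝ) ≤ al ^ (4 * x) →
  (((Ico A (A + H)).filter (fun N => ∀ p ∈ F,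
    (roughPart p (gf (p - p1) N + e p).toNat).Prime ∧
    (((gf (p - p1) N + e p).toNat / roughPart p (gf (p - p1) N + e p).toNat : ℕ) : ℝ) <
      Real.exp (x * Real.log al / 8))).card : ℝ) ≤
    (C * F.card * (Real.log x / x)) ^ F.card * H

/-- TASK KT: the bound for `k` exponents, given the first digits. -/
def S_KT : Prop := S_TUG → ∀ g : ℕ → ℝ, (∃ G : ℝ, ∀ p, |g p| ≤ G) → Pool.Agent.N176.GW.S_K al g

end Pool.Agent.N176.SW
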