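import Mathlib
import Pool.Agent.N176.GW.All
import Pool.Agent.N176.SW.Stm

set_option autoImplicit false

/-!
# The base `1 + √2`: assembly
-/

namespace Pool.Agent.N176.SW

open Pool.Agent.N176.GW

theorem hal : (1 : ℝ) < al := by
  unfold al
  have := Real.sqrt_pos.2 (by norm_num : (0 : ℝ) < 2)
  linarith

theorem win_lil (hk : S_K al (fun _ => 0)) :
    S_WIN al (fun _ => 0) ∧ S_LIL al (fun _ => 0) := by
  have g0 : ∃ G : ℝ, ∀ p : ℕ, |(fun _ : ℕ => (0 : ℝ)) p| ≤ G := ⟨0, fun _ => by simp⟩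
  have rb : S_RB al (fun _ => 0) := Pool.Agent.N170.GW.rb al hal _ g0
  have ex : S_EX al (fun _ => 0) := Pool.Agent.N966.GW.ex al hal _ hk rb
  have sm : S_SM al (fun _ => 0) := Pool.Agent.N116.GW.sm al hal _ hk rb
  have bl : S_BL al (fun _ => 0) := Pool.Agent.N176.GW.BL.bl hal ex sm
  have fm : S_FM al := Pool.Agent.N603.GW.fm Pool.Agent.N176.OW.All.fw al hal
  have cl : S_CL al (fun _ => 0) := Pool.Agent.N222.GW.cl al hal _ g0
  have gc : S_GC al (fun _ => 0) := Pool.Agent.N738.GW.gc al hal _ fm cl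
  have itm : S_ITM al := Pool.Agent.N255.GW.itm al hal
  have agr : S_AGR al (fun _ => 0) := Pool.Agent.N564.GW.agr al hal _ g0
  exact ⟨win hal itm agr bl ex gc, lil hal itm agr bl ex gc⟩

end Pool.Agent.N176.SW
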