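import Mathlib
import Pool.Agent.N176.SW.Asm
import Pool.Agent.N176.SW.LIN
import Pool.Agent.N94.SW.TUG
import Pool.Agent.N971.SW.KT

set_option autoImplicit false

/-!
# The base `1 + √2`: assembly
-/

namespace Pool.Agent.N176.SW.All

open Pool.Agent.N176.GW

theorem laws : S_WIN Pool.Agent.N176.SW.al (fun _ => 0) ∧ S_LIL Pool.Agent.N176.SW.al (fun _ => 0) :=
  win_lil (Pool.Agent.N971.SW.kt (Pool.Agent.N94.SW.tug Pool.Agent.N176.SW.My.lin
    Pool.Agent.N176.GW.All.lf) (fun _ => 0) ⟨0, fun _ => by simp⟩)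

end Pool.Agent.N176.SW.All
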