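import Mathlib
import Pool.Agent.N176.SW.Stm

set_option autoImplicit false

/-! Elementary facts on `1 + √2` and the Pell numbers -/

namespace Pool.Agent.N176.SW.My

open Pool.Agent.N176.SW

/-- the conjugate -/
noncomputable def ps : ℝ := 1 - Real.sqrt 2

theorem s2 : Real.sqrt 2 ^ 2 = 2 := Real.sq_sqrt (by norm_num)

theorem s2lo : (1.414 : ℝ) < Real.sqrt 2 := by
  rw [Real.lt_sqrt (by norm_num)]
  norm_num

theorem s2hi : Real.sqrt 2 < 1.415 := by
  rw [Real.sqrt_lt' (by norm_num)]
  norm_num

theorem al_sq : al ^ 2 = 2 * al + 1 := by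
  have := s2
  unfold al
  linear_combination this

theorem ps_sq : ps ^ 2 = 2 * ps + 1 := by
  have := s2
  unfold ps
  linear_combination this

theorem al_lo : (2.414 : ℝ) < al := by
  have := s2lo
  unfold al
  linarith

theorem al_hi : al < 2.415 := by
  have := s2hi
  unfold al
  linarith

theorem al_pos : 0 < al := by
  have := al_lo
  linarith

theorem one_lt_al : 1 < al := by
  have := al_lo
  linarith

theorem al_lt_three : al < 3 := by
  have := al_hi
  linarith

theorem al_inv : al⁻¹ = al - 2 := by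
  have h := al_sq
  have h0 := al_pos.ne'
  field_simp
  linear_combination -h

theorem al_inv' : al⁻¹ = -ps := by
  rw [al_inv]
  unfold al ps
  ring

theorem ps_neg : ps < 0 := by
  have := s2lo
  unfold ps
  linarith

theorem ps_abs : |ps| ≤ 1 := by
  have h1 := s2lo
  have h2 := s2hi
  unfold ps
  rw [abs_le]
  constructor <;> linarith

theorem al_irr : Irrational al := by
  unfold al
  exact_mod_cast Nat.prime_two.irrational_sqrt.ratCast_add 1

theorem U0 : U 0 = 0 := rfl
theorem U1 : U 1 = 1 := rfl
theorem U2 : U 2 = 2 := rfl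
theorem U3 : U 3 = 5 := rfl

theorem U_add_two (n : ℕ) : U (n + 2) = 2 * U (n + 1) + U n := by
  conv_lhs => unfold U

theorem U_pos (n : ℕ) (hn : 0 < n) : 0 < U n := by
  obtain ⟨m, rfl⟩ : ∃ m, n = m + 1 := ⟨n - 1, by omega⟩
  clear hn
  induction m using Nat.strong_induction_on with
  | _ m ih =>
    rcases m with _ | m
    · simp [U]
    · rw [show m + 1 + 1 = m + 2 by ring, U_add_two]
      have := ih m (by omega)
      omega

theorem U_le_succ (n : ℕ) : U n ≤ U (n + 1) := by
  rcases n with _ | n
  · simp [U]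
  · rw [show n + 1 + 1 = n + 2 by ring, U_add_two]
    omega

theorem U_cop (n : ℕ) : Nat.Coprime (U n) (U (n + 1)) := by
  induction n with
  | zero => simp [U]
  | succ n ih =>
    rw [show n + 1 + 1 = n + 2 by ring, U_add_two, Nat.coprime_mul_right_add_right]
    exact ih.symm

/-- addition formula -/
theorem U_add (m n : ℕ) : U (m + n + 1) = U m * U n + U (m + 1) * U (n + 1) := by
  induction n generalizing m with
  | zero => simp [U]
  | succ n ih =>
    rw [show m + (n + 1) + 1 = (m + 1) + n + 1 by ring, ih (m + 1),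
      show m + 1 + 1 = m + 2 by ring, show n + 1 + 1 = n + 2 by ring, U_add_two, U_add_two]
    ring

theorem U_phi (h : ℕ) : (U (h + 1) : ℝ) + (U h : ℝ) / al = al ^ h := by
  rw [div_eq_mul_inv, al_inv]
  induction h with
  | zero => simp [U]
  | succ h ih =>
    rw [show h + 1 + 1 = h + 2 by ring, U_add_two, pow_succ, ← ih]
    push_cast
    have := al_sq
    linear_combination (-(U h : ℝ)) * this

theorem U_ps (h : ℕ) : ps * (U (h + 1) : ℝ) + (U h : ℝ) = ps ^ (h + 1) := by
  induction h with
  | zero => simp [U]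
  | succ h ih =>
    rw [show h + 1 + 1 = h + 2 by ring, U_add_two, pow_succ, ← ih]
    push_cast
    have := ps_sq
    linear_combination (-(U (h + 1) : ℝ)) * this

/-- Binet -/
theorem U_binet (n : ℕ) : (U n : ℝ) = (al ^ n - ps ^ n) / (2 * Real.sqrt 2) := by
  have hs : (2 * Real.sqrt 2) ≠ 0 := by
    have := s2lo
    positivity
  rw [eq_div_iff hs]
  induction n using Nat.strong_induction_on with
  | _ n ih =>
    rcases n with _ | _ | n
    · simp [U]
    · simp only [U, zero_add, pow_one, al, ps]
      push_cast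
      ring
    · have h1 := ih n (by omega)
      have h2 := ih (n + 1) (by omega)
      rw [show n + 1 + 1 = n + 2 by ring, U_add_two]
      push_cast
      have e1 : al ^ (n + 2) = 2 * al ^ (n + 1) + al ^ n := by
        have := al_sq
        calc al ^ (n + 2) = al ^ n * al ^ 2 := by ring
          _ = _ := by rw [this]; ring
      have e2 : ps ^ (n + 2) = 2 * ps ^ (n + 1) + ps ^ n := by
        have := ps_sq
        calc ps ^ (n + 2) = ps ^ n * ps ^ 2 := by ring
          _ = _ := by rw [this]; ring
      rw [e1, e2]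
      linear_combination 2 * h2 + h1

theorem U_le (h : ℕ) : (U h : ℝ) ≤ al ^ h := by
  have h1 := U_phi h
  have h2 : (U h : ℝ) ≤ U (h + 1) := by exact_mod_cast U_le_succ h
  have h3 : (0:ℝ) ≤ U h / al := div_nonneg (Nat.cast_nonneg _) al_pos.le
  linarith

theorem U_succ_le (n : ℕ) : ((U (n + 1) : ℕ) : ℝ) ≤ al ^ n := by
  have h1 := U_phi n
  have h3 : (0:ℝ) ≤ U n / al := div_nonneg (Nat.cast_nonneg _) al_pos.le
  linarith

theorem U_ge (n : ℕ) : al ^ n ≤ ((U (n + 2) : ℕ) : ℝ) := by
  rw [← U_phi n, U_add_two]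
  push_cast
  have h1 : (U n : ℝ) / al ≤ U n := div_le_self (Nat.cast_nonneg _) one_lt_al.le
  have h2 : (0 : ℝ) ≤ U (n + 1) := Nat.cast_nonneg _
  linarith

end Pool.Agent.N176.SW.My
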