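import Mathlib
import Pool.Agent.N176.SW.Asm

set_option autoImplicit false

/-!
# The base `1 + √2`: all solutions with a fixed multiple of `t`
-/

namespace Pool.Agent.N176.SW

open Filter Topology MeasureTheory
open Pool.Agent.N176.GW
open Pool.Agent.N176.OW (VS)

lemma ae_scale {c : ℝ} (hc : 0 < c) {Q : ℝ → Prop} (h : ∀ᵐ β : ℝ, 0 < β → Q β) :
    ∀ᵐ t : ℝ, 0 < t → Q (c * t) := by
  have hq : Measure.QuasiMeasurePreserving (fun t : ℝ => c * t) volume volume := by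
    refine ⟨measurable_const_mul c, ?_⟩
    rw [Real.map_volume_mul_left hc.ne']
    exact Measure.smul_absolutelyContinuous
  filter_upwards [hq.ae h] with t ht h0
  exact ht (mul_pos hc h0)

theorem scaled_univ {c ψ : ℝ} (hc : 0 < c) (hψ : |ψ| < 1)
    (h : S_WIN al (fun _ => 0) ∧ S_LIL al (fun _ => 0)) :
    ∃ C : ℝ, ∀ᵐ t : ℝ, 0 < t → ∀ B : ℝ,
      (∀ᶠ n : ℕ in atTop, ∀ n' ≥ n,
        |((MB al (fun p => B * ψ ^ p) Set.univ (c * t) n' : ℝ) -
            MB al (fun p => B * ψ ^ p) Set.univ (c * t) n) -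
          kr al * Real.log ((n' : ℝ) / n)| ≤
          C * (√(Real.log ((n' : ℝ) / n) * Real.log (Real.log n')) + Real.log (Real.log n'))) ∧
      (∀ᶠ n : ℕ in atTop,
        |(MB al (fun p => B * ψ ^ p) Set.univ (c * t) n : ℝ) - kr al * Real.log n| ≤
        C * √(Real.log n * Real.log (Real.log (Real.log n)))) := by
  obtain ⟨C, hC⟩ := fin_univ hal h.1 h.2 hψ
  exact ⟨C, ae_scale hc hC⟩

theorem scaled_set {c ψ : ℝ} (hc : 0 < c) (hψ : |ψ| < 1)
    (h : S_WIN al (fun _ => 0) ∧ S_LIL al (fun _ => 0)) :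
    ∃ C : ℝ, ∀ S : Set ℕ, Tendsto (fun n => VS S n) atTop atTop →
      ∀ᵐ t : ℝ, 0 < t → ∀ B : ℝ,
      (∀ᶠ n : ℕ in atTop, ∀ n' ≥ n,
        |((MB al (fun p => B * ψ ^ p) S (c * t) n' : ℝ) -
            MB al (fun p => B * ψ ^ p) S (c * t) n) -
          kr al * (VS S n' - VS S n)| ≤
          C * (√((VS S n' - VS S n) * Real.log (VS S n')) + Real.log (VS S n'))) ∧
      (∀ᶠ n : ℕ in atTop, |(MB al (fun p => B * ψ ^ p) S (c * t) n : ℝ) - kr al * VS S n| ≤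
        C * √(VS S n * Real.log (Real.log (VS S n)))) := by
  obtain ⟨C, hC⟩ := fin_set hal h.1 h.2 hψ
  exact ⟨C, fun S hS => ae_scale hc (hC S hS)⟩

end Pool.Agent.N176.SW
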